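import Pool.Agent.H950.FK.St

/-!
FK project of helper950, task T10: the main discrete theorem.
-/

set_option autoImplicit false

namespace Pool.Agent.H339.FK

open Pool.Agent.H950.FK
open H974 H984P H984N H342P H443B MeasureTheory TopologicalSpace

lemma clu_mono {D D' : GD} (h : D.Le D') {F F' : Finset Edg} (hc : D.cfg F ⊆ D'.cfg F') :
    D.clu F ⊆ D'.clu F' := by
  rintro v ⟨u, hu, hr⟩
  refine ⟨u, ?_, hr.mono hc⟩
  have h1 : u.1 ≤ D.w u.2 := hu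
  exact h1.trans (h.w u.2)

lemma dclu_anti {D D' : GD} (h : D.Le D') {F F' : Finset Edg} (hc : D.cfg F ⊆ D'.cfg F') :
    D'.dclu F' ⊆ D.dclu F := by
  rintro f ⟨g, ⟨v, hv, hgv⟩, hr⟩
  refine ⟨g, ⟨v, ?_, hgv⟩, hr.mono (Set.compl_subset_compl.2 hc)⟩
  have h1 : D'.z v.2 ≤ v.1 := hv
  exact (h.z v.2).trans h1

lemma W_not_Z {D : GD} {v : Vtx} (h : v ∈ D.W) : v ∉ D.Z := by
  intro h'
  have h1 : v.1 ≤ D.w v.2 := h
  have h2 : D.z v.2 ≤ v.1 := h'
  have h3 := D.lt v.2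
  omega

lemma clu_free {D : GD} {F : Finset Edg} (hF : F ⊆ D.E) {v : Vtx} (hv : v ∈ D.clu F) :
    v ∉ D.Z := by
  obtain ⟨u, hu, hr⟩ := hv
  induction hr with
  | refl => exact W_not_Z hu
  | tail _ hs _ =>
    obtain ⟨e, he, hh⟩ := hs
    have hends : src e ∉ D.Z ∧ tgt e ∉ D.Z := by
      rcases he with he | he
      · have := D.mem_E.1 (hF he)
        exact ⟨this.1, this.2.1⟩
      · exact ⟨W_not_Z he.1, W_not_Z he.2⟩
    rcases hh with ⟨-, h2⟩ | ⟨h1, -⟩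
    · rw [← h2]; exact hends.2
    · rw [← h1]; exact hends.1

lemma cor_all (e : Edg) : cor (dsrc e) (src e) ∧ cor (dsrc e) (tgt e) ∧ cor (dtgt e) (src e) ∧
    cor (dtgt e) (tgt e) := by
  obtain ⟨x, y, o⟩ := e
  cases o <;> simp [cor]

lemma dclu_cor {D : GD} {F : Finset Edg} {f : Vtx} (hf : f ∈ D.dclu F) :
    ∃ v, cor f v ∧ v ∉ D.W := by
  obtain ⟨g, ⟨v, hv, hgv⟩, hr⟩ := hf
  induction hr with
  | refl => exact ⟨v, hgv, fun h => W_not_Z h hv⟩
  | tail _ hs _ =>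
    obtain ⟨e, he, hh⟩ := hs
    have hnW : ¬ (src e ∈ D.W ∧ tgt e ∈ D.W) := fun h => he (Or.inr h)
    obtain ⟨c1, c2, c3, c4⟩ := cor_all e
    have hor : src e ∉ D.W ∨ tgt e ∉ D.W := by
      by_contra hcon
      push Not at hcon
      exact hnW hcon
    rcases hh with ⟨-, h2⟩ | ⟨h1, -⟩
    · rw [← h2]
      rcases hor with h | h
      · exact ⟨_, c3, h⟩
      · exact ⟨_, c4, h⟩
    · rw [← h1]
      rcases hor with h | h
      · exact ⟨_, c1, h⟩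
      · exact ⟨_, c2, h⟩

lemma face_near (σ : St) : (σ.1.1 - 1 ≤ (face σ).1 ∧ (face σ).1 ≤ σ.1.1) ∧
    (σ.1.2 - 1 ≤ (face σ).2 ∧ (face σ).2 ≤ σ.1.2) := by
  obtain ⟨⟨x, y⟩, c⟩ := σ
  cases c <;> simp

/-- horizontal bounds for the states of `con` -/
lemma con_bounds {D : GD} {F : Finset Edg} (hF : F ⊆ D.E) {σ : St} (hσ : σ ∈ D.con F) {a b : ℤ}
    (ha : ∀ y, a ≤ D.w y) (hb : ∀ y, D.z y ≤ b) : a ≤ (face σ).1 ∧ σ.1.1 < b := by
  obtain ⟨h1, h2, -, -⟩ := hσ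
  constructor
  · obtain ⟨v, hv, hvW⟩ := dclu_cor h2
    have h3 : ¬ v.1 ≤ D.w v.2 := hvW
    have h4 := ha v.2
    have h5 := hv.1
    omega
  · have h3 : ¬ D.z σ.1.2 ≤ σ.1.1 := clu_free hF h1
    have h4 := hb σ.1.2
    omega

section prob

variable {D D' : GD} {x q : ℝ}

lemma wt_pos (hx : 0 < x) (hq : 1 ≤ q) (F : Finset Edg) : 0 < D.wt x q F := by
  unfold GD.wt
  have : 0 < q := by linarith
  positivity

lemma mu_nonneg (hx : 0 < x) (hq : 1 ≤ q) (F : Finset Edg) : 0 ≤ D.mu x q F := by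
  unfold GD.mu
  exact div_nonneg (wt_pos hx hq F).le (Finset.sum_nonneg fun G _ => (wt_pos hx hq G).le)

lemma mu_sum (hx : 0 < x) (hq : 1 ≤ q) : ∑ F ∈ D.E.powerset, D.mu x q F = 1 := by
  unfold GD.mu
  rw [← Finset.sum_div]
  apply div_self
  apply ne_of_gt
  apply Finset.sum_pos (fun G _ => wt_pos hx hq G)
  exact ⟨∅, by simp⟩

lemma P_nonneg (hx : 0 < x) (hq : 1 ≤ q) (A : Finset Edg → Prop) : 0 ≤ D.P x q A := by
  unfold GD.P
  apply Finset.sum_nonneg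
  intro F _
  split_ifs
  · exact mu_nonneg hx hq F
  · exact le_rfl

lemma P_le_one (hx : 0 < x) (hq : 1 ≤ q) (A : Finset Edg → Prop) : D.P x q A ≤ 1 := by
  rw [← mu_sum (D := D) hx hq]
  unfold GD.P
  apply Finset.sum_le_sum
  intro F _
  split_ifs
  · exact le_rfl
  · exact mu_nonneg hx hq F

open Classical in
lemma P_fst {κ : Finset Edg → Finset Edg → ℝ} (h : Coup D D' x q κ) (A : Finset Edg → Prop) :
    D.P x q A = ∑ F ∈ D.E.powerset, ∑ F' ∈ D'.E.powerset, κ F F' * (if A F then 1 else 0) := by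
  unfold GD.P
  refine Finset.sum_congr rfl fun F hF => ?_
  rw [← Finset.sum_mul, h.fst F (Finset.mem_powerset.1 hF)]
  split_ifs <;> simp

open Classical in
lemma P_snd {κ : Finset Edg → Finset Edg → ℝ} (h : Coup D D' x q κ) (A : Finset Edg → Prop) :
    D'.P x q A = ∑ F ∈ D.E.powerset, ∑ F' ∈ D'.E.powerset, κ F F' * (if A F' then 1 else 0) := by
  rw [Finset.sum_comm]
  unfold GD.P
  refine Finset.sum_congr rfl fun F hF => ?_
  rw [← Finset.sum_mul, h.snd F (Finset.mem_powerset.1 hF)]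
  split_ifs <;> simp

lemma P_mono {κ : Finset Edg → Finset Edg → ℝ} (h : Coup D D' x q κ) {A B : Finset Edg → Prop}
    (hAB : ∀ F ⊆ D.E, ∀ F' ⊆ D'.E, κ F F' ≠ 0 → A F → B F') : D.P x q A ≤ D'.P x q B := by
  classical
  rw [P_fst h, P_snd h]
  apply Finset.sum_le_sum
  intro F hF
  apply Finset.sum_le_sum
  intro F' hF'
  rcases eq_or_ne (κ F F') 0 with h0 | h0
  · rw [h0]; simp
  · apply mul_le_mul_of_nonneg_left _ (h.nn F F')
    by_cases hA : A F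
    · rw [if_pos hA, if_pos (hAB F (Finset.mem_powerset.1 hF) F' (Finset.mem_powerset.1 hF') h0 hA)]
    · rw [if_neg hA]; split_ifs <;> norm_num

lemma P_mono' {κ : Finset Edg → Finset Edg → ℝ} (h : Coup D D' x q κ) {A B : Finset Edg → Prop}
    (hAB : ∀ F ⊆ D.E, ∀ F' ⊆ D'.E, κ F F' ≠ 0 → B F' → A F) : D'.P x q B ≤ D.P x q A := by
  classical
  rw [P_fst h, P_snd h]
  apply Finset.sum_le_sum
  intro F hF
  apply Finset.sum_le_sum
  intro F' hF'
  rcases eq_or_ne (κ F F') 0 with h0 | h0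
  · rw [h0]; simp
  · apply mul_le_mul_of_nonneg_left _ (h.nn F F')
    by_cases hB : B F'
    · rw [if_pos hB, if_pos (hAB F (Finset.mem_powerset.1 hF) F' (Finset.mem_powerset.1 hF') h0 hB)]
    · rw [if_neg hB]; split_ifs <;> norm_num

end prob

open Classical in
/-- the counting function -/
noncomputable def cf (D D' : GD) (r : ℤ) (F F' : Finset Edg) (z : ℤ × ℤ) : ℝ :=
  ((if hitC D' z r F' then 1 else 0) - (if hitC D z r F then 1 else 0)) +
    ((if hitD D z r F then 1 else 0) - (if hitD D' z r F' then 1 else 0))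

lemma cf_nonneg {D D' : GD} (h : D.Le D') {F F' : Finset Edg} (hc : D.cfg F ⊆ D'.cfg F')
    (r : ℤ) (z : ℤ × ℤ) : 0 ≤ cf D D' r F F' z := by
  have h1 : hitC D z r F → hitC D' z r F' := by
    rintro ⟨u, hu, h2⟩
    exact ⟨u, clu_mono h hc hu, h2⟩
  have h2 : hitD D' z r F' → hitD D z r F := by
    rintro ⟨u, hu, h2⟩
    exact ⟨u, dclu_anti h hc hu, h2⟩
  unfold cf
  by_cases ha : hitC D z r F <;> by_cases hb : hitC D' z r F' <;> by_cases hc : hitD D z r F <;>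
    by_cases hd : hitD D' z r F' <;> simp_all

lemma cf_one_C {D D' : GD} (h : D.Le D') {F F' : Finset Edg} (hc : D.cfg F ⊆ D'.cfg F')
    (r : ℤ) (z : ℤ × ℤ) (h1 : hitC D' z r F') (h2 : ¬ hitC D z r F) : 1 ≤ cf D D' r F F' z := by
  have h3 : hitD D' z r F' → hitD D z r F := by
    rintro ⟨u, hu, h2⟩
    exact ⟨u, dclu_anti h hc hu, h2⟩
  unfold cf
  rw [if_pos h1, if_neg h2]
  by_cases hc : hitD D z r F <;> by_cases hd : hitD D' z r F' <;> simp_all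

lemma cf_one_D {D D' : GD} (h : D.Le D') {F F' : Finset Edg} (hc : D.cfg F ⊆ D'.cfg F')
    (r : ℤ) (z : ℤ × ℤ) (h1 : hitD D z r F) (h2 : ¬ hitD D' z r F') : 1 ≤ cf D D' r F F' z := by
  have h3 : hitC D z r F → hitC D' z r F' := by
    rintro ⟨u, hu, h2⟩
    exact ⟨u, clu_mono h hc hu, h2⟩
  unfold cf
  rw [if_pos h1, if_neg h2]
  by_cases hc : hitC D z r F <;> by_cases hd : hitC D' z r F' <;> simp_all

lemma sq_le_sum {S : Finset (ℤ × ℤ)} {f : ℤ × ℤ → ℝ} (hf : ∀ z, 0 ≤ f z) {r : ℤ} (hr : 1 ≤ r)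
    {p1 p2 : ℤ} (hS : Finset.Icc (p1 - r + 1) p1 ×ˢ Finset.Icc (p2 - r + 1) p2 ⊆ S)
    (h1 : ∀ z ∈ Finset.Icc (p1 - r + 1) p1 ×ˢ Finset.Icc (p2 - r + 1) p2, 1 ≤ f z) :
    (r : ℝ) ^ 2 ≤ ∑ z ∈ S, f z := by
  have hcard : ((Finset.Icc (p1 - r + 1) p1 ×ˢ Finset.Icc (p2 - r + 1) p2).card : ℝ) =
      (r : ℝ) ^ 2 := by
    rw [Finset.card_product, Int.card_Icc, Int.card_Icc]
    have e1 : p1 + 1 - (p1 - r + 1) = r := by ring
    have e2 : p2 + 1 - (p2 - r + 1) = r := by ring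
    rw [e1, e2]
    have : ((r.toNat : ℕ) : ℝ) = r := by
      have h2 : ((r.toNat : ℕ) : ℤ) = r := Int.toNat_of_nonneg (by omega)
      exact_mod_cast h2
    push_cast
    rw [this]
    ring
  calc (r : ℝ) ^ 2 = ∑ z ∈ Finset.Icc (p1 - r + 1) p1 ×ˢ Finset.Icc (p2 - r + 1) p2, (1 : ℝ) := by
        rw [Finset.sum_const, nsmul_eq_mul, mul_one, hcard]
    _ ≤ ∑ z ∈ Finset.Icc (p1 - r + 1) p1 ×ˢ Finset.Icc (p2 - r + 1) p2, f z :=
        Finset.sum_le_sum h1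
    _ ≤ _ := Finset.sum_le_sum_of_subset_of_nonneg hS fun z _ _ => hf z

/-- the combinatorial part -/
lemma count (h8 : S_con) {D D' : GD} (h : D.Le D') {F F' : Finset Edg}
    (hF : F ⊆ D.E) (hF' : F' ⊆ D'.E) (hc : D.cfg F ⊆ D'.cfg F') {a b c d r : ℤ}
    (ha : ∀ y, a ≤ D.w y) (hb : ∀ y, D'.z y ≤ b) (hc1 : c ≤ D.lo) (hc2 : c ≤ D'.lo)
    (hd1 : D.hi ≤ d) (hd2 : D'.hi ≤ d) (hr : 1 ≤ r)
    (hbad : Bad D D' (r + |D.hi - D'.hi| + |D.lo - D'.lo|) F F') :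
    (r : ℝ) ^ 2 ≤ ∑ z ∈ Finset.Icc (a - r) b ×ˢ Finset.Icc (c - r) d, cf D D' r F F' z := by
  have hnn := cf_nonneg h hc r
  have hhi := abs_sub_le_iff.1 (le_refl |D.hi - D'.hi|)
  have hlo := abs_sub_le_iff.1 (le_refl |D.lo - D'.lo|)
  rcases hbad with ⟨σ, hσ, hfar⟩ | ⟨τ, hτ, hfar⟩
  · -- a state of `con F`
    have hbd := con_bounds hF hσ ha (fun y => (h.z y).trans (hb y))
    obtain ⟨hσ1, hσ2, hσ3, hσ4⟩ := id hσ
    obtain ⟨⟨f1, f2⟩, f3, f4⟩ := face_near σ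
    have hno : ¬ ∃ f ∈ D'.dclu F', (σ.1.1 - r ≤ f.1 ∧ f.1 < σ.1.1 + r) ∧
        (σ.1.2 - r ≤ f.2 ∧ f.2 < σ.1.2 + r) := by
      intro hex
      obtain ⟨τ, hτ, ⟨g1, g2⟩, g3, g4⟩ := h8 D' F' hF' (σ.1.1 - r) (σ.1.1 + r) (σ.1.2 - r)
        (σ.1.2 + r) ⟨σ.1, clu_mono h hc hσ1, ⟨by omega, by omega⟩, by omega, by omega⟩ hex
      have h1 := hfar τ hτ
      have h2 : sd σ.1 τ.1 ≤ r + |D.hi - D'.hi| + |D.lo - D'.lo| := by
        unfold sd
        apply max_le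
        · rw [abs_le]; constructor <;> omega
        · rw [abs_le]
          constructor
          · rcases g4 with g4 | ⟨g4, g5⟩ <;> omega
          · rcases g3 with g3 | ⟨g3, g5⟩ <;> omega
      omega
    apply sq_le_sum hnn hr (p1 := (face σ).1) (p2 := (face σ).2)
    · intro z hz
      rw [Finset.mem_product, Finset.mem_Icc, Finset.mem_Icc] at hz ⊢
      refine ⟨⟨by omega, by omega⟩, by omega, by omega⟩
    · intro z hz
      rw [Finset.mem_product, Finset.mem_Icc, Finset.mem_Icc] at hz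
      apply cf_one_D h hc
      · exact ⟨face σ, hσ2, ⟨by omega, by omega⟩, by omega, by omega⟩
      · rintro ⟨f, hf, ⟨e1, e2⟩, e3, e4⟩
        exact hno ⟨f, hf, ⟨by omega, by omega⟩, by omega, by omega⟩
  · -- a state of `con' F'`
    have hbd := con_bounds hF' hτ (fun y => (ha y).trans (h.w y)) hb
    obtain ⟨hτ1, hτ2, hτ3, hτ4⟩ := id hτ
    obtain ⟨⟨f1, f2⟩, f3, f4⟩ := face_near τ
    have hno : ¬ ∃ u ∈ D.clu F, (τ.1.1 - r ≤ u.1 ∧ u.1 ≤ τ.1.1 + r) ∧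
        (τ.1.2 - r ≤ u.2 ∧ u.2 ≤ τ.1.2 + r) := by
      intro hex
      obtain ⟨σ, hσ, ⟨g1, g2⟩, g3, g4⟩ := h8 D F hF (τ.1.1 - r) (τ.1.1 + r) (τ.1.2 - r)
        (τ.1.2 + r) hex
        ⟨face τ, dclu_anti h hc hτ2, ⟨by omega, by omega⟩, by omega, by omega⟩
      have h1 := hfar σ hσ
      have h2 : sd σ.1 τ.1 ≤ r + |D.hi - D'.hi| + |D.lo - D'.lo| := by
        unfold sd
        apply max_le
        · rw [abs_le]; constructor <;> omega
        · rw [abs_le]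
          constructor
          · rcases g3 with g3 | ⟨g3, g5⟩ <;> omega
          · rcases g4 with g4 | ⟨g4, g5⟩ <;> omega
      omega
    apply sq_le_sum hnn hr (p1 := τ.1.1) (p2 := τ.1.2)
    · intro z hz
      rw [Finset.mem_product, Finset.mem_Icc, Finset.mem_Icc] at hz ⊢
      refine ⟨⟨by omega, by omega⟩, by omega, by omega⟩
    · intro z hz
      rw [Finset.mem_product, Finset.mem_Icc, Finset.mem_Icc] at hz
      apply cf_one_C h hc
      · exact ⟨τ.1, hτ1, ⟨by omega, by omega⟩, by omega, by omega⟩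
      · rintro ⟨f, hf, ⟨e1, e2⟩, e3, e4⟩
        exact hno ⟨f, hf, ⟨by omega, by omega⟩, by omega, by omega⟩

theorem t_main (h4 : Pool.Agent.H950.FK.S_cmp) (h5 : Pool.Agent.H950.FK.S_shift)
    (_h7 : Pool.Agent.H950.FK.S_path) (h8 : Pool.Agent.H950.FK.S_con)
    (h9 : Pool.Agent.H950.FK.S_sum) : Pool.Agent.H950.FK.S_main := by
  classical
  intro D D' v x q hx hq hLe hLe' a b c d r ha hb hc1 hc2 hd1 hd2 hr
  obtain ⟨κ, hκ, hmono⟩ := h4 D D' hLe x q hx hq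
  obtain ⟨κ', hκ', hmono'⟩ := h4 D' (D.shift v) hLe' x q hx hq
  refine ⟨κ, hκ, ?_⟩
  have hr0 : (0 : ℝ) < r := by exact_mod_cast (by omega : 0 < r)
  rw [le_div_iff₀ (by positivity)]
  obtain ⟨S, hS⟩ : ∃ S, S = Finset.Icc (a - r) b ×ˢ Finset.Icc (c - r) d := ⟨_, rfl⟩
  -- step 1
  have h1 : Kp D D' κ (Bad D D' (r + |D.hi - D'.hi| + |D.lo - D'.lo|)) * (r : ℝ) ^ 2 ≤
      ∑ F ∈ D.E.powerset, ∑ F' ∈ D'.E.powerset, κ F F' * ∑ z ∈ S, cf D D' r F F' z := by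
    unfold Kp
    rw [Finset.sum_mul]
    apply Finset.sum_le_sum
    intro F hF
    rw [Finset.sum_mul]
    apply Finset.sum_le_sum
    intro F' hF'
    rcases eq_or_ne (κ F F') 0 with h0 | h0
    · rw [h0]; simp
    · have hcfg := hmono F (Finset.mem_powerset.1 hF) F' (Finset.mem_powerset.1 hF') h0
      split_ifs with hbad
      · apply mul_le_mul_of_nonneg_left _ (hκ.nn F F')
        rw [hS]
        exact count h8 hLe (Finset.mem_powerset.1 hF) (Finset.mem_powerset.1 hF') hcfg ha hb hc1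
          hc2 hd1 hd2 hr hbad
      · rw [zero_mul]
        exact mul_nonneg (hκ.nn F F') (Finset.sum_nonneg fun z _ => cf_nonneg hLe hcfg r z)
  -- step 2
  have h2 : ∑ F ∈ D.E.powerset, ∑ F' ∈ D'.E.powerset, κ F F' * ∑ z ∈ S, cf D D' r F F' z =
      ∑ z ∈ S, ((D'.P x q (hitC D' z r) - D.P x q (hitC D z r)) +
        (D.P x q (hitD D z r) - D'.P x q (hitD D' z r))) := by
    have e1 : ∀ F F' : Finset Edg, κ F F' * ∑ z ∈ S, cf D D' r F F' z =
        ∑ z ∈ S, κ F F' * cf D D' r F F' z := fun F F' => Finset.mul_sum _ _ _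
    simp only [e1]
    have e2 : ∀ F : Finset Edg, ∑ F' ∈ D'.E.powerset, ∑ z ∈ S, κ F F' * cf D D' r F F' z =
        ∑ z ∈ S, ∑ F' ∈ D'.E.powerset, κ F F' * cf D D' r F F' z := fun F => Finset.sum_comm
    simp only [e2]
    rw [Finset.sum_comm]
    refine Finset.sum_congr rfl fun z _ => ?_
    rw [P_fst hκ (hitC D z r), P_fst hκ (hitD D z r), P_snd hκ (hitC D' z r),
      P_snd hκ (hitD D' z r), ← Finset.sum_sub_distrib, ← Finset.sum_sub_distrib,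
      ← Finset.sum_add_distrib]
    refine Finset.sum_congr rfl fun F _ => ?_
    rw [← Finset.sum_sub_distrib, ← Finset.sum_sub_distrib, ← Finset.sum_add_distrib]
    refine Finset.sum_congr rfl fun F' _ => ?_
    unfold cf
    ring
  -- step 3
  have h3 : ∀ z : ℤ × ℤ, D'.P x q (hitC D' z r) ≤ D.P x q (hitC D (z.1 - v.1, z.2 - v.2) r) := by
    intro z
    rw [← (h5 D v x q z r).1]
    apply P_mono hκ'
    rintro F hF F' hF' h0 ⟨u, hu, hu'⟩
    exact ⟨u, clu_mono hLe' (hmono' F hF F' hF' h0) hu, hu'⟩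
  have h3' : ∀ z : ℤ × ℤ, D.P x q (hitD D (z.1 - v.1, z.2 - v.2) r) ≤ D'.P x q (hitD D' z r) := by
    intro z
    rw [← (h5 D v x q z r).2]
    apply P_mono' hκ'
    rintro F hF F' hF' h0 ⟨u, hu, hu'⟩
    exact ⟨u, dclu_anti hLe' (hmono' F hF F' hF' h0) hu, hu'⟩
  have hab : a - r ≤ b + 1 := by
    have e1 := ha 0
    have e2 := D.lt 0
    have e3 := hLe.z 0
    have e4 := hb 0
    omega
  have hcd : c - r ≤ d + 1 := by
    have e1 := D.lohi
    omega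
  have h9C := h9 (fun z => D.P x q (hitC D z r)) (fun z => P_nonneg hx hq _)
    (fun z => P_le_one hx hq _) v (a - r) b (c - r) d hab hcd
  have h9D := h9 (fun z => D.P x q (hitD D z r)) (fun z => P_nonneg hx hq _)
    (fun z => P_le_one hx hq _) v (a - r) b (c - r) d hab hcd
  rw [← hS] at h9C h9D
  have h4 : ∑ z ∈ S, ((D'.P x q (hitC D' z r) - D.P x q (hitC D z r)) +
        (D.P x q (hitD D z r) - D'.P x q (hitD D' z r))) ≤
      ∑ z ∈ S, (D.P x q (hitC D (z.1 - v.1, z.2 - v.2) r) - D.P x q (hitC D z r)) -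
        ∑ z ∈ S, (D.P x q (hitD D (z.1 - v.1, z.2 - v.2) r) - D.P x q (hitD D z r)) := by
    rw [← Finset.sum_sub_distrib]
    apply Finset.sum_le_sum
    intro z _
    have := h3 z
    have := h3' z
    linarith
  have h5' := (abs_le.1 h9C).2
  have h6' := (abs_le.1 h9D).1
  push_cast at h5' h6'
  calc _ ≤ _ := h1
    _ = _ := h2
    _ ≤ _ := h4
    _ ≤ _ := by linarith

end Pool.Agent.H339.FK
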